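import Pool.Agent.H63.WT.TD

/-! Row LOCR of `wit_modules`: the local output over the real numbers. -/

set_option autoImplicit false

open Polynomial Matrix Pool.Agent.H63.WT

namespace Pool.Agent.H23.WT

open Pool.Agent.H70.N6 (sg sg_pos sg_neg sg_or sg_mul)

theorem sg_div {x y : ℝ} (hx : x ≠ 0) (hy : y ≠ 0) : sg (x / y) = sg (x * y) := by
  have h1 : x / y = (x * y) * (1 / y ^ 2) := by field_simp
  have h2 : (0 : ℝ) < 1 / y ^ 2 := by positivity
  rw [h1, sg_mul (mul_ne_zero hx hy) h2.ne', sg_pos h2, mul_one]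

theorem eval_ne {A h : ℝ[X]} (hc : IsCoprime A h) {e : ℝ} (he : eval e A = 0) :
    eval e h ≠ 0 := by
  intro h0
  obtain ⟨a, b, hab⟩ := hc
  have h1 := congrArg (eval e) hab
  rw [eval_add, eval_mul, eval_mul, he, h0, mul_zero, mul_zero, add_zero, eval_one] at h1
  exact zero_ne_one h1

theorem mem_rt {A : ℝ[X]} (hA : A.Monic) (e : ℝ) : e ∈ A.roots.toFinset ↔ eval e A = 0 := by
  rw [Multiset.mem_toFinset, mem_roots hA.ne_zero, IsRoot.def]

theorem sig_Phi (hPHI : T_PHI) (hRTF : T_RTF) (s : WG ℝ →+ ℤ)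
    (hs : ∀ a : ℝ, a ≠ 0 → s (on a) = if 0 < a then 1 else -1) (A B D : ℝ[X]) (hA : A.Monic)
    (hAs : A.Separable) (hAB : IsCoprime A B) (hAD : IsCoprime A D) :
    s (cls (Phi A B D)) = -2 * ∑ e ∈ A.roots.toFinset.filter (fun e => eval e D < 0),
      sg (eval e (derivative (A * B))) := by
  rw [(hPHI ℝ two_ne_zero A B D hA hAB hAD).2.1, map_sub,
    hRTF s hs A (D * B) hA hAs (hAD.mul_right hAB), hRTF s hs A B hA hAs hAB,
    ← Finset.sum_sub_distrib, Finset.mul_sum, Finset.sum_filter]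
  apply Finset.sum_congr rfl
  intro e he
  rw [mem_rt hA] at he
  have hD := eval_ne hAD he
  have hB := eval_ne hAB he
  have hA' := eval_ne hAs he
  have h1 : eval e (derivative (A * B)) = eval e (derivative A) * eval e B := by
    rw [derivative_mul, eval_add, eval_mul, eval_mul, he, zero_mul, add_zero]
  change sg (eval e (D * B) / eval e (derivative A)) - sg (eval e B / eval e (derivative A)) = _
  rw [h1, eval_mul, mul_div_assoc, sg_mul hD (div_ne_zero hB hA'), sg_div hB hA',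
    mul_comm (eval e (derivative A)) (eval e B)]
  split_ifs with h2
  · rw [sg_neg h2]
    ring
  · rw [sg_pos (lt_of_le_of_ne (not_lt.1 h2) hD.symm)]
    ring

theorem sgn_congr {x : ℤ} {n : ℕ} (hx : x = 1 ∨ x = -1) (h : x = 1 ↔ Even n) :
    (-1) ^ n = x := by
  rcases Nat.even_or_odd n with h1 | h1
  · rw [h1.neg_one_pow, h.2 h1]
  · rw [h1.neg_one_pow]
    rcases hx with h2 | h2
    · exact absurd (h.1 h2) (Nat.not_even_iff_odd.2 h1)
    · exact h2.symm

theorem pf_LOCR (hEXR : T_EXR) (hRSG : T_RSG) (hRTF : T_RTF) (hRHP : T_RHP) (hRND : T_RND)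
    (hRTI : T_RTI) (hRAL : T_RAL) (hRCB : T_RCB) (hPHI : T_PHI) (_hNRS : T_NRS)
    (_hGDT : T_GDT) (_hSSQ : T_SSQ) : T_LOCR := by
  intro e he P1 P2 D hP1 hP2 hsep hdeg heven hcop hq1 hq2 hCZ
  classical
  obtain ⟨s, hs, -, hs4⟩ := hRSG
  have hP : (P1 * P2).Monic := hP1.mul hP2
  have h7 : (P1 * P2).natDegree = 7 := by rw [hP1.natDegree_mul hP2, hdeg]
  have hc12 : IsCoprime P1 P2 := hsep.isCoprime
  have hs1 : P1.Separable := hsep.of_mul_left
  have hs2 : P2.Separable := hsep.of_mul_right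
  have hD1 : IsCoprime P1 D := hcop.of_mul_left_left
  have hD2 : IsCoprime P2 D := hcop.of_mul_left_right
  have hq : IsSquare ((P1 * P2).resultant D) := by
    rw [hP1.natDegree_mul hP2, resultant_mul_left P1 P2 D D.natDegree le_rfl]
    exact hq1.mul hq2
  set R := (P1 * P2).roots.toFinset with hR
  set N1 := P1.roots.toFinset.filter (fun e => eval e D < 0) with hN1
  set N2 := P2.roots.toFinset.filter (fun e => eval e D < 0) with hN2
  have hN12 : N1 ∪ N2 = R.filter (fun e => eval e D < 0) := by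
    rw [hN1, hN2, ← Finset.filter_union]
    congr 1
    ext x
    rw [Finset.mem_union, mem_rt hP1, mem_rt hP2, hR, mem_rt hP, eval_mul, mul_eq_zero]
  have hsub1 : N1 ⊆ R := (Finset.subset_union_left.trans hN12.subset).trans
    (Finset.filter_subset _ _)
  have hsub2 : N2 ⊆ R := (Finset.subset_union_right.trans hN12.subset).trans
    (Finset.filter_subset _ _)
  have hdisj : Disjoint N1 N2 := by
    rw [Finset.disjoint_left]
    intro x hx1 hx2
    rw [hN1, Finset.mem_filter, mem_rt hP1] at hx1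
    rw [hN2, Finset.mem_filter, mem_rt hP2] at hx2
    exact eval_ne hc12 hx1.1 hx2.1
  -- the signatures
  have e1 := sig_Phi hPHI hRTF s hs P1 P2 D hP1 hs1 hc12 hD1
  have e2 := sig_Phi hPHI hRTF s hs P2 P1 D hP2 hs2 hc12.symm hD2
  have e3 := sig_Phi hPHI hRTF s hs (P1 * P2) 1 D hP hsep isCoprime_one_right hcop
  rw [← hN1] at e1
  rw [← hN2, mul_comm P2 P1] at e2
  rw [← hR, ← hN12, mul_one] at e3
  have i1 := ((hPHI ℝ two_ne_zero P1 P2 D hP1 hc12 hD1).2.2 hq1).2
  have i2 := ((hPHI ℝ two_ne_zero P2 P1 D hP2 hc12.symm hD2).2.2 hq2).2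
  have i3 := ((hPHI ℝ two_ne_zero (P1 * P2) 1 D hP isCoprime_one_right hcop).2.2 hq).2
  have hpar : ∀ N : Finset ℝ, (2 : ℤ) ∣ ∑ x ∈ N, sg (eval x (derivative (P1 * P2))) →
      Even N.card := by
    intro N hN
    have h1 : (2 : ℤ) ∣ ∑ x ∈ N, (sg (eval x (derivative (P1 * P2))) - 1) := by
      apply Finset.dvd_sum
      intro x _
      rcases sg_or (eval x (derivative (P1 * P2))) with h | h <;> rw [h] <;> norm_num
    rw [Finset.sum_sub_distrib, Finset.sum_const, nsmul_eq_mul, mul_one] at h1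
    have h2 := (dvd_sub_right hN).1 h1
    have h3 : (2 : ℕ) ∣ N.card := by exact_mod_cast h2
    exact even_iff_two_dvd.2 h3
  have hev1 : Even N1.card := by
    apply hpar
    have h1 := hs4 _ i1
    rw [e1] at h1
    omega
  have hev2 : Even N2.card := by
    apply hpar
    have h1 := hs4 _ i2
    rw [e2] at h1
    omega
  have hodd : Odd R.card := by
    have h1 := Pool.Agent.H70.N6.card_eq hP hsep
    rw [h7] at h1
    change 7 = R.card + _ at h1
    rw [Nat.odd_iff]
    omega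
  have hle : R.card ≤ 7 := by
    have h1 := Pool.Agent.H70.N6.card_eq hP hsep
    rw [h7] at h1
    change 7 = R.card + _ at h1
    omega
  have hmR : ∀ x, x ∈ R ↔ eval x (P1 * P2) = 0 := fun x => mem_rt hP x
  -- the terms
  have hterm : ∀ t, t ∉ R → ∀ x ∈ R,
      (if 0 < eval x D * (x - t) / eval x (derivative (P1 * P2)) then (1 : ℤ) else -1) =
      (if x ∈ N1 ∪ N2 then -1 else 1) * sg (eval x (derivative (P1 * P2))) *
        (if t < x then 1 else -1) := by
    intro t ht x hx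
    have h0 := (hmR x).1 hx
    have hD := eval_ne hcop h0
    have hP' := eval_ne hsep h0
    have hxt : x - t ≠ 0 := by
      intro h
      apply ht
      rw [← sub_eq_zero.1 h]
      exact hx
    change sg (eval x D * (x - t) / eval x (derivative (P1 * P2))) = _
    rw [sg_div (mul_ne_zero hD hxt) hP', sg_mul (mul_ne_zero hD hxt) hP', sg_mul hD hxt]
    have h1 : sg (eval x D) = if x ∈ N1 ∪ N2 then -1 else 1 := by
      have h4 : x ∈ N1 ∪ N2 ↔ x ∈ R ∧ eval x D < 0 := by
        rw [hN12, Finset.mem_filter]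
      by_cases h2 : eval x D < 0
      · rw [sg_neg h2, if_pos (h4.2 ⟨hx, h2⟩)]
      · rw [sg_pos (lt_of_le_of_ne (not_lt.1 h2) hD.symm), if_neg (fun h => h2 (h4.1 h).2)]
    have h3 : sg (x - t) = if t < x then 1 else -1 := by
      unfold Pool.Agent.H70.N6.sg
      simp only [sub_pos]
    rw [h1, h3]
    ring
  obtain ⟨t0, ht0, hsum, hc1, hc2⟩ := hRCB R N1 N2
    (fun x => sg (eval x (derivative (P1 * P2)))) hodd hle hsub1 hsub2 hdisj hev1 hev2 (by
      intro x hx
      have h1 := hRAL (P1 * P2) hP hsep x hx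
      simp only [Pool.Agent.H70.N6.sg]
      exact if_congr h1 rfl rfl) (by
      intro t ht
      have h1 := hRND (P1 * P2) D hP hsep h7 hcop hCZ t (fun h => ht ((hmR t).2 h))
      rwa [Finset.sum_congr rfl (hterm t ht)] at h1)
  -- the interval
  have hopen : IsOpen ((R : Set ℝ)ᶜ) := R.finite_toSet.isClosed.isOpen_compl
  obtain ⟨η, hη, hball⟩ := Metric.isOpen_iff.1 hopen t0 (by simpa using ht0)
  have hfar : ∀ x ∈ R, η ≤ |x - t0| := by
    intro x hx
    by_contra hcon
    have h1 : x ∈ Metric.ball t0 η := by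
      rw [Metric.mem_ball, Real.dist_eq]
      exact not_le.1 hcon
    exact hball h1 hx
  refine ⟨t0, η, hη, fun t ht => ?_⟩
  have htR : t ∉ R := by
    intro h
    have := hfar t h
    linarith
  have hside : ∀ x ∈ R, (t < x ↔ t0 < x) ∧ (x < t ↔ x < t0) := by
    intro x hx
    have h1 := hfar x hx
    rw [abs_lt] at ht
    rcases abs_cases (x - t0) with ⟨h2, h3⟩ | ⟨h2, h3⟩
    · rw [h2] at h1
      exact ⟨⟨fun _ => by linarith, fun _ => by linarith [ht.2]⟩,
        ⟨fun _ => by linarith [ht.2], fun _ => by linarith⟩⟩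
    · rw [h2] at h1
      exact ⟨⟨fun _ => by linarith [ht.1], fun _ => by linarith⟩,
        ⟨fun _ => by linarith, fun _ => by linarith [ht.1]⟩⟩
  have hev : eval t (P1 * P2) ≠ 0 := fun h => htR ((hmR t).2 h)
  have hev' := hev
  rw [eval_mul] at hev'
  have ht1 : eval t P1 ≠ 0 := left_ne_zero_of_mul hev'
  have hcopt : ∀ A : ℝ[X], eval t A ≠ 0 → IsCoprime A (X - C t) := by
    intro A hA
    refine ((irreducible_X_sub_C t).coprime_iff_not_dvd.2 ?_).symm
    rw [dvd_iff_isRoot]
    exact hA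
  have key : ∀ (A B : ℝ[X]) (N : Finset ℝ), A.Monic → A.Separable → IsCoprime A D →
      eval t A ≠ 0 → N = A.roots.toFinset.filter (fun x => eval x D < 0) → N ⊆ R →
      I2 (cls (Phi A B D)) →
      s (cls (Phi A B D)) = -2 * ∑ x ∈ N, sg (eval x (derivative (P1 * P2))) →
      (Even ((N.filter fun x => x < t0).card) ↔
        (4 : ℤ) ∣ ∑ x ∈ N, sg (eval x (derivative (P1 * P2)))) →
      hpr A (X - C t) D = e (cls (Phi A B D)) := by
    intro A B N hA hAs hAD hAt hN hNR hI hsN hcN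
    rw [hRHP A (X - C t) D hA hAs (hcopt A hAt) hAD]
    have h1 : (A.roots.toFinset.filter fun x => eval x (X - C t) < 0 ∧ eval x D < 0) =
        N.filter (fun x => x < t0) := by
      ext x
      rw [hN, Finset.filter_filter, Finset.mem_filter, Finset.mem_filter, eval_sub, eval_X,
        eval_C, sub_neg]
      constructor
      · rintro ⟨h1, h2, h3⟩
        have hx : x ∈ R := hNR (by rw [hN, Finset.mem_filter]; exact ⟨h1, h3⟩)
        exact ⟨h1, h3, (hside x hx).2.1 h2⟩
      · rintro ⟨h1, h3, h2⟩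
        have hx : x ∈ R := hNR (by rw [hN, Finset.mem_filter]; exact ⟨h1, h3⟩)
        exact ⟨h1, (hside x hx).2.2 h2, h3⟩
    rw [h1]
    apply sgn_congr (he.sgn _)
    rw [hEXR.2 s e hs he _ hI, hsN, hcN]
    constructor
    · intro h; omega
    · intro h; omega
  refine ⟨hev, ?_, ?_, ?_⟩
  · apply hRTI (P1 * P2) D t hP hsep h7 hcop hev
    rw [Finset.sum_congr rfl (hterm t htR)]
    have h1 : ∀ x ∈ R, (if x ∈ N1 ∪ N2 then (-1 : ℤ) else 1) *
        sg (eval x (derivative (P1 * P2))) * (if t < x then 1 else -1) =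
        (if x ∈ N1 ∪ N2 then (-1 : ℤ) else 1) *
        sg (eval x (derivative (P1 * P2))) * (if t0 < x then 1 else -1) := by
      intro x hx
      rw [if_congr (hside x hx).1 rfl rfl]
    rw [Finset.sum_congr rfl h1]
    exact hsum
  · exact key P1 P2 N1 hP1 hs1 hD1 ht1 hN1 hsub1 i1 e1 hc1
  · refine key (P1 * P2) 1 (N1 ∪ N2) hP hsep hcop hev hN12 ?_ i3 e3 hc2
    rw [hN12]
    exact Finset.filter_subset _ _

end Pool.Agent.H23.WT
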