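import Pool.Agent.H63.WT.TB
import Pool.Agent.H34.N6.Lib

/-! Row MEX of `wit_modules`: a separable quartic which represents the class. -/

set_option autoImplicit false

open Polynomial Matrix Pool.Agent.H63.WT

namespace Pool.Agent.H23.WT

theorem cop_congr {F : Type*} [Field F] {A w z : F[X]} (h : IsCoprime A w) (hd : A ∣ z - w) :
    IsCoprime A z := by
  obtain ⟨q, hq⟩ := hd
  have h1 : z = w + A * q := by rw [← hq]; ring
  rw [h1]
  exact h.add_mul_left_right q

/-- elements near an invertible element -/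
theorem near (hSQP : T_SQP) (hRMB : T_RMB) {F : Type} [NontriviallyNormedField F]
    [IsUltrametricDist F] [ProperSpace F] [CharZero F] (A g : F[X]) (hA : A.Monic)
    (hg : IsCoprime A g) (N : ℕ) : ∃ ε : ℝ, 0 < ε ∧ ∀ h : F[X], h.natDegree ≤ N →
    (∀ i, ‖h.coeff i‖ < ε) → ∃ z : F[X], IsCoprime A z ∧ A ∣ (g + h) - g * z ^ 2 := by
  by_cases hA1 : A = 1
  · refine ⟨1, one_pos, fun h _ _ => ⟨1, ?_, ?_⟩⟩
    · exact isCoprime_one_right
    · rw [hA1]; exact one_dvd _
  have hdeg : 0 < A.natDegree := by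
    rw [Nat.pos_iff_ne_zero]
    intro h
    exact hA1 (hA.natDegree_eq_zero.1 h)
  obtain ⟨u, v, huv⟩ := hg
  obtain ⟨ε₀, hε₀, h0⟩ := hSQP F A hA
  obtain ⟨K, hK, h1⟩ := hRMB F A v N hA
  refine ⟨ε₀ / (2 * K), by positivity, fun h hN hh => ?_⟩
  have h2 : ∀ i, ‖((v * h) %ₘ A).coeff i‖ < ε₀ := by
    intro i
    have h3 := h1 h (ε₀ / (2 * K)) hN (by positivity) (fun i => (hh i).le) i
    have h4 : K * (ε₀ / (2 * K)) = ε₀ / 2 := by field_simp
    rw [h4] at h3
    linarith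
  obtain ⟨z, hz, hdz⟩ := h0 ((v * h) %ₘ A) (Polynomial.natDegree_modByMonic_lt _ hA hA1) h2
  refine ⟨z, hz, ?_⟩
  have h5 : A ∣ v * h - (v * h) %ₘ A := by
    have h6 := Polynomial.modByMonic_add_div (v * h) A
    exact ⟨(v * h) /ₘ A, by linear_combination -h6⟩
  have h7 : (g + h) - g * z ^ 2 = g * ((1 + (v * h) %ₘ A) - z ^ 2) +
      g * (v * h - (v * h) %ₘ A) + A * (u * h) := by
    linear_combination (-h) * huv
  rw [h7]
  exact dvd_add (dvd_add (hdz.mul_left _) (h5.mul_left _)) (dvd_mul_right _ _)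

/-- a separable quartic on a line -/
theorem exists_s {F : Type*} [NontriviallyNormedField F] [CharZero F] (M N0 : F[X])
    (hM : M.natDegree ≤ 4) (hN : N0.Monic) (hN4 : N0.natDegree = 4) (hNs : N0.Separable)
    (B : ℝ) : ∃ s : F, B < ‖s‖ ∧ (N0 + C s * M).natDegree = 4 ∧ (N0 + C s * M).Separable := by
  classical
  let W : F[X][X] := N0.map C + C X * M.map C
  have hW : ∀ s : F, W.map (evalRingHom s) = N0 + C s * M := by
    intro s
    have h1 : (evalRingHom s).comp (C : F →+* F[X]) = RingHom.id F := by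
      ext x
      simp
    simp only [W]
    rw [Polynomial.map_add, Polynomial.map_mul, Polynomial.map_map, Polynomial.map_map, h1,
      Polynomial.map_id, Polynomial.map_id, map_C]
    simp
  have hR : ∀ s : F, eval s (resultant W (derivative W) 4 3) =
      resultant (N0 + C s * M) (derivative (N0 + C s * M)) 4 3 := by
    intro s
    have h1 := resultant_map_map W (derivative W) 4 3 (evalRingHom s)
    rw [← derivative_map, hW s] at h1
    rw [h1]
    rfl
  have hder : ∀ f : F[X], f.natDegree = 4 → (derivative f).natDegree = 3 := by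
    intro f hf
    rw [Polynomial.natDegree_derivative f, hf]
  have hRne : resultant W (derivative W) 4 3 ≠ 0 := by
    intro h0
    have h1 := hR 0
    rw [h0, eval_zero, C_0, zero_mul, add_zero] at h1
    have h2 : resultant N0 (derivative N0) = 0 := by
      rw [hN4, hder N0 hN4]
      exact h1.symm
    rw [resultant_eq_zero_iff] at h2
    exact h2.2 hNs
  have hlin : (1 + C (M.coeff 4) * X : F[X]) ≠ 0 := by
    intro h
    have h1 := congrArg (eval 0) h
    simp at h1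
  have hinf : {s : F | B < ‖s‖}.Infinite := by
    obtain ⟨a, ha⟩ := NormedField.exists_one_lt_norm F
    obtain ⟨n, hn⟩ := pow_unbounded_of_one_lt B ha
    have h1 : Function.Injective fun j : ℕ => a ^ (n + j) := by
      intro i j hij
      have h2 : ‖a‖ ^ (n + i) = ‖a‖ ^ (n + j) := by
        rw [← norm_pow, ← norm_pow]
        exact congrArg _ hij
      have h3 := (pow_right_strictMono₀ ha).injective h2
      omega
    refine (Set.infinite_range_of_injective h1).mono ?_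
    rintro _ ⟨j, rfl⟩
    change B < ‖a ^ (n + j)‖
    rw [norm_pow]
    exact hn.trans_le (pow_le_pow_right₀ ha.le (by omega))
  obtain ⟨s, hs, hns⟩ := hinf.exists_notMem_finset
    ((resultant W (derivative W) 4 3).roots.toFinset ∪ (1 + C (M.coeff 4) * X : F[X]).roots.toFinset)
  rw [Finset.mem_union, not_or, Multiset.mem_toFinset, Multiset.mem_toFinset, mem_roots hRne,
    mem_roots hlin, IsRoot.def, IsRoot.def, hR] at hns
  obtain ⟨h1, h2⟩ := hns
  have hc4 : (N0 + C s * M).coeff 4 ≠ 0 := by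
    rw [coeff_add, coeff_C_mul]
    have h3 : N0.coeff 4 = 1 := by rw [← hN4]; exact hN
    rw [h3]
    intro h4
    apply h2
    rw [eval_add, eval_one, eval_mul, eval_C, eval_X]
    linear_combination h4
  have hd : (N0 + C s * M).natDegree = 4 := by
    apply le_antisymm
    · refine (natDegree_add_le _ _).trans (max_le hN4.le ?_)
      exact (natDegree_C_mul_le _ _).trans hM
    · exact le_natDegree_of_ne_zero hc4
  refine ⟨s, hs, hd, ?_⟩
  have h5 : resultant (N0 + C s * M) (derivative (N0 + C s * M)) ≠ 0 := by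
    rw [hder _ hd, hd]
    exact h1
  by_contra hcon
  apply h5
  rw [resultant_eq_zero_iff]
  refine ⟨Or.inl ?_, hcon⟩
  intro h6
  rw [h6] at hd
  simp at hd

/-- splitting off the common factor -/
theorem split_gcd {F : Type*} [Field F] (P x : F[X]) (hP : P.Monic) (hs : P.Separable) :
    ∃ p1 p2 : F[X], p1.Monic ∧ p2.Monic ∧ P = p1 * p2 ∧ p1 ∣ x ∧ IsCoprime p2 x := by
  classical
  obtain ⟨p', hp'⟩ := EuclideanDomain.gcd_dvd_left P x
  obtain ⟨x', hx'⟩ := EuclideanDomain.gcd_dvd_right P x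
  have hb := EuclideanDomain.gcd_eq_gcd_ab P x
  generalize hg : EuclideanDomain.gcd P x = g at *
  have hg0 : g ≠ 0 := by
    intro h
    rw [h, zero_mul] at hp'
    exact hP.ne_zero hp'
  have hco : IsCoprime p' x' := by
    refine ⟨EuclideanDomain.gcdA P x, EuclideanDomain.gcdB P x, ?_⟩
    apply mul_left_cancel₀ hg0
    linear_combination (-1 : F[X]) * hb - EuclideanDomain.gcdA P x * hp' -
      EuclideanDomain.gcdB P x * hx'
  have hc : g.leadingCoeff ≠ 0 := leadingCoeff_ne_zero.2 hg0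
  have h1 : C g.leadingCoeff⁻¹ * C g.leadingCoeff = (1 : F[X]) := by
    rw [← C_mul, inv_mul_cancel₀ hc, C_1]
  have hm1 : (C g.leadingCoeff⁻¹ * g).Monic := by
    have := monic_mul_leadingCoeff_inv hg0
    rwa [mul_comm] at this
  have hPe : P = (C g.leadingCoeff⁻¹ * g) * (C g.leadingCoeff * p') := by
    linear_combination hp' - g * p' * h1
  have hm2 : (C g.leadingCoeff * p').Monic := by
    have h2 := hP
    rw [hPe] at h2
    exact hm1.of_mul_monic_left h2
  refine ⟨C g.leadingCoeff⁻¹ * g, C g.leadingCoeff * p', hm1, hm2, hPe, ?_, ?_⟩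
  · exact ⟨C g.leadingCoeff * x', by linear_combination hx' - g * x' * h1⟩
  · have h3 : x = (C g.leadingCoeff⁻¹ * g) * (C g.leadingCoeff * x') := by
      linear_combination hx' - g * x' * h1
    have h4 : IsCoprime (C g.leadingCoeff * p') (C g.leadingCoeff⁻¹ * g) := by
      have h5 := hs
      rw [hPe] at h5
      exact h5.isCoprime.symm
    rw [h3]
    refine h4.mul_right ?_
    have hu : IsUnit (C g.leadingCoeff : F[X]) := isUnit_C.2 hc.isUnit
    exact (isCoprime_mul_unit_left hu p' x').2 hco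

theorem pf_MEX (hSQP : T_SQP) (hRMB : T_RMB) : T_MEX := by
  classical
  intro F _ _ _ _ P D hP h7 hs hD hCZ
  obtain ⟨x₀, hx₀, hz0, hz1⟩ := hCZ
  rw [Pool.Agent.H34.N6.gA_bilin] at hz0 hz1
  set x := Pool.Agent.H34.N6.pol x₀ with hxdef
  have hxne : x ≠ 0 := fun h => hx₀ (Pool.Agent.H34.N6.pol_eq_zero.1 h)
  have hxdeg : x.natDegree ≤ 6 := Pool.Agent.H34.N6.natDegree_pol x₀
  obtain ⟨r, hr6, hr⟩ := Pool.Agent.H34.N6.exists_rem hP h7 (D * x ^ 2)
  have hc6 : r.coeff 6 = 0 := by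
    have h1 : Pool.Agent.H34.N6.lam P r = 0 := by
      rw [← hz0]
      symm
      apply Pool.Agent.H34.N6.lam_congr hP
      have h2 : D * X ^ 0 * x * x - r = D * x ^ 2 - r := by ring
      rw [h2]
      exact hr
    rw [Pool.Agent.H34.N6.lam_of_lt hP (Polynomial.degree_lt_degree (by omega)), h7] at h1
    exact h1
  have hr5 : r.natDegree ≤ 5 := by
    by_contra hcon
    have h1 : r.natDegree = 6 := by omega
    have h2 : r ≠ 0 := by
      intro h3
      rw [h3] at h1
      simp at h1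
    apply h2
    rw [← leadingCoeff_eq_zero, leadingCoeff, h1]
    exact hc6
  have hc5 : r.coeff 5 = 0 := by
    have h1 : Pool.Agent.H34.N6.lam P (r * X) = 0 := by
      rw [← hz1]
      symm
      apply Pool.Agent.H34.N6.lam_congr hP
      have h2 : D * X ^ 1 * x * x - r * X = (D * x ^ 2 - r) * X := by ring
      rw [h2]
      exact hr.mul_right _
    have h3 : (r * X).natDegree ≤ 6 := (natDegree_mul_le).trans (by
      rw [natDegree_X]
      omega)
    rw [Pool.Agent.H34.N6.lam_of_lt hP (Polynomial.degree_lt_degree (by omega)), h7] at h1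
    have h4 : (r * X).coeff (5 + 1) = r.coeff 5 := coeff_mul_X _ _
    rw [← h4]
    exact h1
  have hr4 : r.natDegree ≤ 4 := by
    by_contra hcon
    have h1 : r.natDegree = 5 := by omega
    have h2 : r ≠ 0 := by
      intro h3
      rw [h3] at h1
      simp at h1
    apply h2
    rw [← leadingCoeff_eq_zero, leadingCoeff, h1]
    exact hc5
  have hrne : r ≠ 0 := by
    intro h
    rw [h, sub_zero] at hr
    have h1 : P ∣ x ^ 2 := hD.dvd_of_dvd_mul_left hr
    have h2 : P ∣ x := (hs.squarefree.dvd_pow_iff_dvd two_ne_zero).1 h1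
    have h3 := natDegree_le_of_dvd h2 hxne
    omega
  obtain ⟨p1, p2, hm1, hm2, hPe, hd1, hco2⟩ := split_gcd P x hP hs
  have hp1P : p1 ∣ P := ⟨p2, hPe⟩
  have hp2P : p2 ∣ P := ⟨p1, by rw [hPe]; ring⟩
  have hp12 : IsCoprime p1 p2 := by
    have h5 := hs
    rw [hPe] at h5
    exact h5.isCoprime
  have hp1r : p1 ∣ r := by
    have h1 : p1 ∣ D * x ^ 2 - r := hp1P.trans hr
    have h2 : p1 ∣ D * x ^ 2 := (hd1.trans (dvd_pow_self x two_ne_zero)).mul_left _
    have h3 := dvd_sub h2 h1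
    have h4 : D * x ^ 2 - (D * x ^ 2 - r) = r := by ring
    rwa [h4] at h3
  have hp14 : p1.natDegree ≤ 4 := (natDegree_le_of_dvd hp1r hrne).trans hr4
  set g := D %ₘ p1 with hgdef
  have hg3 : g.natDegree ≤ 4 := by
    by_cases h1 : p1 = 1
    · rw [hgdef, h1, modByMonic_one]
      simp
    · have := natDegree_modByMonic_lt D hm1 h1
      rw [hgdef]
      omega
  have hgD : p1 ∣ D - g := by
    have h1 := Polynomial.modByMonic_add_div D p1
    exact ⟨D /ₘ p1, by rw [hgdef]; linear_combination -h1⟩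
  have hD1 : IsCoprime p1 D := IsCoprime.of_isCoprime_of_dvd_left hD hp1P
  have hD2 : IsCoprime p2 (D * x ^ 2) :=
    (IsCoprime.of_isCoprime_of_dvd_left hD hp2P).mul_right hco2.pow_right
  obtain ⟨ε₁, hε₁, hn1⟩ := near hSQP hRMB p1 D hm1 hD1 4
  obtain ⟨ε₂, hε₂, hn2⟩ := near hSQP hRMB p2 (D * x ^ 2) hm2 hD2 4
  -- the bound of the coefficients of `g`
  obtain ⟨Gb, hGb, hgb⟩ : ∃ Gb : ℝ, 0 < Gb ∧ ∀ i, ‖g.coeff i‖ ≤ Gb := by
    refine ⟨1 + ∑ i ∈ Finset.range 5, ‖g.coeff i‖, by positivity, fun i => ?_⟩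
    by_cases hi : i < 5
    · have h1 : ‖g.coeff i‖ ≤ ∑ i ∈ Finset.range 5, ‖g.coeff i‖ :=
        Finset.single_le_sum (f := fun i => ‖g.coeff i‖) (fun _ _ => norm_nonneg _)
          (Finset.mem_range.2 hi)
      linarith
    · rw [coeff_eq_zero_of_natDegree_lt (by omega), norm_zero]
      positivity
  obtain ⟨η, hη0, hη⟩ : ∃ η : F, 0 < ‖η‖ ∧ ‖η‖ < min 1 (ε₂ / Gb) :=
    NormedField.exists_norm_lt F (lt_min one_pos (by positivity))
  have hη1 : ‖η‖ < 1 := hη.trans_le (min_le_left _ _)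
  have hη2 : ‖η‖ * Gb < ε₂ := by
    have := hη.trans_le (min_le_right _ _)
    rwa [lt_div_iff₀ hGb] at this
  have hηne : η ≠ 0 := norm_pos_iff.1 hη0
  have hηsq : ‖η ^ 2‖ * Gb < ε₂ := by
    rw [norm_pow]
    have h1 : ‖η‖ ^ 2 * Gb ≤ ‖η‖ * Gb := by
      apply mul_le_mul_of_nonneg_right _ hGb.le
      rw [pow_two]
      exact mul_le_of_le_one_left (norm_nonneg _) hη1.le
    linarith
  let N0 : F[X] := X ^ 4 - C 1
  have hN0m : N0.Monic := monic_X_pow_sub_C _ (by norm_num)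
  have hN04 : N0.natDegree = 4 := natDegree_X_pow_sub_C
  have hN0s : N0.Separable := separable_X_pow_sub_C 1 (by norm_num) one_ne_zero
  have hN0c : ∀ i, ‖N0.coeff i‖ ≤ 1 := by
    intro i
    simp only [N0]
    rw [coeff_sub, sub_eq_add_neg]
    refine (IsUltrametricDist.norm_add_le_max _ _).trans (max_le ?_ ?_)
    · rw [coeff_X_pow]
      split_ifs <;> simp
    · rw [norm_neg, coeff_C]
      split_ifs <;> simp
  have hMd : (r + C (η ^ 2) * g).natDegree ≤ 4 :=
    (natDegree_add_le _ _).trans (max_le hr4 ((natDegree_C_mul_le _ _).trans hg3))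
  obtain ⟨s, hs1, hs2, hs3⟩ := exists_s (r + C (η ^ 2) * g) N0 hMd hN0m hN04 hN0s
    (max 1 (max (1 / ε₂) (1 / (ε₁ * ‖η‖ ^ 2))))
  have hsB1 : 1 < ‖s‖ := (le_max_left _ _).trans_lt hs1
  have hs0 : 0 < ‖s‖ := one_pos.trans hsB1
  have hsne : s ≠ 0 := norm_pos_iff.1 hs0
  have hsB2 : ‖s⁻¹‖ < ε₂ := by
    have h1 : 1 / ε₂ < ‖s‖ := ((le_max_left _ _).trans (le_max_right _ _)).trans_lt hs1
    rw [norm_inv, inv_lt_comm₀ hs0 hε₂, ← one_div]
    exact h1
  have hsB3 : ‖s⁻¹‖ < ε₁ * ‖η‖ ^ 2 := by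
    have h1 : 1 / (ε₁ * ‖η‖ ^ 2) < ‖s‖ :=
      ((le_max_right _ _).trans (le_max_right _ _)).trans_lt hs1
    rw [norm_inv, inv_lt_comm₀ hs0 (by positivity), ← one_div]
    exact h1
  -- the values modulo `p2`
  obtain ⟨z2, hz2, hdz2⟩ := hn2 (C (η ^ 2) * g + C s⁻¹ * N0)
    ((natDegree_add_le _ _).trans (max_le ((natDegree_C_mul_le _ _).trans hg3)
      ((natDegree_C_mul_le _ _).trans hN04.le))) (by
    intro i
    rw [coeff_add, coeff_C_mul, coeff_C_mul]
    refine (IsUltrametricDist.norm_add_le_max _ _).trans_lt (max_lt ?_ ?_)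
    · rw [norm_mul]
      exact (mul_le_mul_of_nonneg_left (hgb i) (norm_nonneg _)).trans_lt hηsq
    · rw [norm_mul]
      exact (mul_le_of_le_one_right (norm_nonneg _) (hN0c i)).trans_lt hsB2)
  obtain ⟨z1, hz1', hdz1⟩ := hn1 (C (s⁻¹ * (η ^ 2)⁻¹) * N0)
    ((natDegree_C_mul_le _ _).trans hN04.le) (by
    intro i
    rw [coeff_C_mul, norm_mul]
    refine (mul_le_of_le_one_right (norm_nonneg _) (hN0c i)).trans_lt ?_
    rw [norm_mul, norm_inv (η ^ 2), norm_pow, ← div_eq_mul_inv, div_lt_iff₀ (by positivity)]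
    exact hsB3)
  have hp12' := hp12
  obtain ⟨u, v, huv⟩ := hp12
  set M := r + C (η ^ 2) * g + C s⁻¹ * N0 with hMdef
  have hMN : M = C s⁻¹ * (N0 + C s * (r + C (η ^ 2) * g)) := by
    have h1 : C s⁻¹ * C s = (1 : F[X]) := by rw [← C_mul, inv_mul_cancel₀ hsne, C_1]
    rw [hMdef]
    linear_combination (-(r + C (η ^ 2) * g)) * h1
  set z := v * p2 * (C η * z1) + u * p1 * (x * z2) with hzdef
  have hzm1 : p1 ∣ z - C η * z1 :=
    ⟨u * (x * z2) - u * (C η * z1), by rw [hzdef]; linear_combination (C η * z1) * huv⟩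
  have hzm2 : p2 ∣ z - x * z2 :=
    ⟨v * (C η * z1) - v * (x * z2), by rw [hzdef]; linear_combination (x * z2) * huv⟩
  have hηC : IsUnit (C η : F[X]) := isUnit_C.2 hηne.isUnit
  have hcz1 : IsCoprime p1 z :=
    cop_congr ((isCoprime_mul_unit_left_right hηC p1 z1).2 hz1') hzm1
  have hcz2 : IsCoprime p2 z := cop_congr (hco2.mul_right hz2) hzm2
  have hcz : IsCoprime P z := by
    rw [hPe]
    exact hcz1.mul_left hcz2
  have hdM1 : p1 ∣ M - D * z ^ 2 := by
    obtain ⟨q1, hq1⟩ := hzm1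
    obtain ⟨q2, hq2⟩ := hdz1
    obtain ⟨q3, hq3⟩ := hgD
    obtain ⟨q4, hq4⟩ := hp1r
    have h1 : C (η ^ 2) * C (s⁻¹ * (η ^ 2)⁻¹) = (C s⁻¹ : F[X]) := by
      rw [← C_mul]
      congr 1
      field_simp
    have h2 : (C (η ^ 2) : F[X]) = C η ^ 2 := by rw [C_pow]
    refine ⟨q4 - C (η ^ 2) * q3 + C (η ^ 2) * q2 - D * q1 * (z + C η * z1), ?_⟩
    rw [hMdef]
    linear_combination hq4 - C (η ^ 2) * hq3 + C (η ^ 2) * hq2 - D * (z + C η * z1) * hq1 -
      N0 * h1 + D * z1 ^ 2 * h2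
  have hdM2 : p2 ∣ M - D * z ^ 2 := by
    obtain ⟨q1, hq1⟩ := hzm2
    obtain ⟨q2, hq2⟩ := hdz2
    obtain ⟨q3, hq3⟩ := hp2P.trans hr
    refine ⟨-q3 + q2 - D * q1 * (z + x * z2), ?_⟩
    rw [hMdef]
    linear_combination -hq3 + hq2 - D * (z + x * z2) * hq1
  have hdM : P ∣ M - D * z ^ 2 := by
    rw [hPe]
    exact hp12'.mul_dvd hdM1 hdM2
  set f := N0 + C s * (r + C (η ^ 2) * g) with hfdef
  have hf0 : f ≠ 0 := by
    intro h
    rw [h] at hs2
    simp at hs2
  have hlc : f.leadingCoeff ≠ 0 := leadingCoeff_ne_zero.2 hf0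
  have hM0 : C (s⁻¹ * f.leadingCoeff) * (C f.leadingCoeff⁻¹ * f) = M := by
    rw [hMN, ← mul_assoc, ← C_mul, mul_assoc s⁻¹, mul_inv_cancel₀ hlc, mul_one]
  refine ⟨s⁻¹ * f.leadingCoeff, C f.leadingCoeff⁻¹ * f, z,
    mul_ne_zero (inv_ne_zero hsne) hlc, ?_, ?_, ?_, ?_, hcz, ?_⟩
  · have := monic_mul_leadingCoeff_inv hf0
    rwa [mul_comm] at this
  · rw [natDegree_C_mul (inv_ne_zero hlc)]
    exact hs2
  · exact hs3.unit_mul (isUnit_C.2 (inv_ne_zero hlc).isUnit)
  · have h1 : IsCoprime P M := cop_congr (hD.mul_right (hcz.pow_right (n := 2))) hdM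
    rw [← hM0] at h1
    exact h1.of_mul_right_right
  · rw [hM0]
    exact hdM

end Pool.Agent.H23.WT
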