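import Pool.Agent.H63.WT.TB
import Pool.Agent.H23.WT.MEX

/-! Row NRP of `wit_modules`: both values near a ramified factor. -/

set_option autoImplicit false

open Polynomial Matrix Pool.Agent.H63.WT

namespace Pool.Agent.H23.WT

theorem coeff_bd {F : Type*} [NormedField F] (g : F[X]) :
    ∃ K : ℝ, 0 < K ∧ ∀ i, ‖g.coeff i‖ < K := by
  refine ⟨1 + ∑ i ∈ g.support, ‖g.coeff i‖, ?_, fun i => ?_⟩
  · have := Finset.sum_nonneg (fun i (_ : i ∈ g.support) => norm_nonneg (g.coeff i))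
    linarith
  · by_cases hi : i ∈ g.support
    · have := Finset.single_le_sum (f := fun i => ‖g.coeff i‖)
        (fun i (_ : i ∈ g.support) => norm_nonneg (g.coeff i)) hi
      linarith
    · rw [notMem_support_iff.1 hi, norm_zero]
      have := Finset.sum_nonneg (fun i (_ : i ∈ g.support) => norm_nonneg (g.coeff i))
      linarith

/-- symbols are locally constant, along `p + η² b` -/
theorem sy_near (hLOC : T_LOC) {F : Type} [NontriviallyNormedField F] [IsUltrametricDist F]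
    [ProperSpace F] [CharZero F] (A M p b : F[X]) (hA : A.Monic) (hM : IsCoprime A M)
    (hp : IsCoprime A p) : ∃ δ : ℝ, 0 < δ ∧ ∀ s : F, ‖s‖ < δ →
    sy A M (p + C s * b) = sy A M p := by
  obtain ⟨ε₁, hε₁, h1⟩ := hLOC F A p (max p.natDegree b.natDegree) hA hp
  obtain ⟨ε₂, hε₂, h2⟩ := hLOC F A (M * p) (M.natDegree + max p.natDegree b.natDegree) hA
    (hM.mul_right hp)
  obtain ⟨K₁, hK₁, hb1⟩ := coeff_bd b
  obtain ⟨K₂, hK₂, hb2⟩ := coeff_bd (M * b)
  refine ⟨min (ε₁ / K₁) (ε₂ / K₂), lt_min (by positivity) (by positivity), fun s hs => ?_⟩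
  have hdeg : (p + C s * b).natDegree ≤ max p.natDegree b.natDegree :=
    (natDegree_add_le _ _).trans (max_le_max le_rfl (natDegree_C_mul_le _ _))
  have e1 : S A (p + C s * b) = S A p := by
    refine (h1 (p + C s * b) hdeg fun i => ?_).2.1
    rw [add_sub_cancel_left, coeff_C_mul, norm_mul]
    calc ‖s‖ * ‖b.coeff i‖ ≤ ‖s‖ * K₁ := mul_le_mul_of_nonneg_left (hb1 i).le (norm_nonneg _)
      _ < ε₁ / K₁ * K₁ := mul_lt_mul_of_pos_right (hs.trans_le (min_le_left _ _)) hK₁
      _ = ε₁ := by field_simp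
  have e2 : S A (M * (p + C s * b)) = S A (M * p) := by
    refine (h2 (M * (p + C s * b)) ?_ fun i => ?_).2.1
    · exact natDegree_mul_le.trans (by omega)
    · rw [show M * (p + C s * b) - M * p = C s * (M * b) by ring, coeff_C_mul, norm_mul]
      calc ‖s‖ * ‖(M * b).coeff i‖ ≤ ‖s‖ * K₂ :=
            mul_le_mul_of_nonneg_left (hb2 i).le (norm_nonneg _)
        _ < ε₂ / K₂ * K₂ := mul_lt_mul_of_pos_right (hs.trans_le (min_le_right _ _)) hK₂
        _ = ε₂ := by field_simp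
  unfold sy
  rw [e1, e2]

theorem pf_NRP (hSYP : T_SYP) (hIRO : T_IRO) (hLOC : T_LOC) (hSYF : T_SYF) (_hSYB : T_SYB)
    (_hSYC : T_SYC) (hSYI : T_SYI) (hIV : T_IV) (hLAL : T_LAL) (hSSQ : T_SSQ)
    (_hGDT : T_GDT) : T_NRP := by
  intro F _ _ _ _ R R' P M p x hR hR' hP hsep hcop hP0 hp hirr hpR hram hx
  have hLA : LA F := hLAL F
  have h2 : (2 : F) ≠ 0 := hLA.1
  obtain ⟨hNI, hnsq⟩ := hLA.2 F inferInstance
  obtain ⟨hdbl, huni, -, -⟩ := hIV F h2 hNI hnsq
  obtain ⟨R'', rfl⟩ := hpR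
  have hR'' : R''.Monic := hp.of_mul_monic_left hR
  have hsepR : (p * R'').Separable := hsep.of_mul_left
  have hpR'' : IsCoprime p R'' := hsepR.isCoprime
  have hRR' : IsCoprime (p * R'') R' := hsep.isCoprime
  have hpR' : IsCoprime p R' := hRR'.of_mul_left_left
  have hRM : IsCoprime (p * R'') M := hcop.of_mul_left_left
  have hR'M : IsCoprime R' M := hcop.of_mul_left_right
  have hpM : IsCoprime p M := hRM.of_mul_left_left
  have hR''M : IsCoprime R'' M := hRM.of_mul_left_right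
  obtain ⟨g, hg, hg0⟩ := hSYP F hLA p M hp hirr hpM hram
  have hcI : I2 (sy R'' M p) := hSYI F h2 R'' M p hR'' hR''M hpR''.symm
  have hgI : I2 (sy p M g) := hSYI F h2 p M g hp hpM hg
  have hb : ∃ b : F[X], IsCoprime p b ∧ sy p M b + sy R'' M p = x := by
    by_cases hxc : x = sy R'' M p
    · refine ⟨1, isCoprime_one_right, ?_⟩
      rw [hxc]
      unfold sy
      rw [mul_one]
      abel
    · refine ⟨g, hg, ?_⟩
      by_cases hc0 : sy R'' M p = 0
      · rw [hc0, add_zero]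
        rw [hc0] at hxc
        exact huni _ _ hgI hx hg0 hxc
      · have hx0 : x = 0 := by
          by_contra hx0
          exact hxc (huni _ _ hx hcI hx0 hc0)
        rw [hx0, huni _ _ hgI hcI hg0 hc0]
        exact hdbl _ hcI
  obtain ⟨b, hbc, hbx⟩ := hb
  have hp1 : p ≠ 1 := by
    rintro rfl
    exact not_irreducible_one hirr
  set b' : F[X] := b %ₘ p with hb'
  have hpb : p ∣ b - b' := by
    have h6 := Polynomial.modByMonic_add_div b p
    exact ⟨b /ₘ p, by rw [hb']; linear_combination -h6⟩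
  have hb'c : IsCoprime p b' := cop_congr hbc (by
    rw [show b' - b = -(b - b') by ring]; exact dvd_neg.2 hpb)
  have hb'0 : b' ≠ 0 := by
    intro h0
    rw [h0, isCoprime_zero_right] at hb'c
    exact hirr.not_isUnit hb'c
  have hdegb : b'.natDegree < p.natDegree := Polynomial.natDegree_modByMonic_lt _ hp hp1
  have hpd : 0 < p.natDegree := by omega
  obtain ⟨ε₀, hε₀, h0⟩ := hIRO F p hp hirr
  obtain ⟨K, hK, hKb⟩ := coeff_bd b'
  obtain ⟨δ₁, hδ₁, hs1⟩ := sy_near hLOC R'' M p b' hR'' hR''M hpR''.symm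
  obtain ⟨δ₂, hδ₂, hs2⟩ := sy_near hLOC R' M p b' hR' hR'M hpR'.symm
  obtain ⟨a, ha0, ha1⟩ := NormedField.exists_norm_lt F one_pos
  have hδ : 0 < min (min δ₁ δ₂) (ε₀ / K) := lt_min (lt_min hδ₁ hδ₂) (by positivity)
  obtain ⟨n, hn⟩ := exists_pow_lt_of_lt_one hδ ha1
  have ha0' : a ≠ 0 := norm_pos_iff.1 ha0
  let T : ℕ → F[X] := fun j => p + C ((a ^ (n + j)) ^ 2) * b'
  have hTinj : Function.Injective T := by
    intro i j hij
    have e1 : C ((a ^ (n + i)) ^ 2) * b' = C ((a ^ (n + j)) ^ 2) * b' := add_left_cancel hij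
    have e2 := mul_right_cancel₀ hb'0 e1
    have e3 := C_injective e2
    have e4 : ‖a‖ ^ ((n + i) * 2) = ‖a‖ ^ ((n + j) * 2) := by
      rw [← norm_pow, ← norm_pow, pow_mul, pow_mul, e3]
    have e5 := (pow_right_strictAnti₀ ha0 ha1).injective e4
    omega
  have hnorm : ∀ j, ‖(a ^ (n + j)) ^ 2‖ < min (min δ₁ δ₂) (ε₀ / K) := by
    intro j
    rw [norm_pow, norm_pow, ← pow_mul]
    refine lt_of_le_of_lt ?_ hn
    exact pow_le_pow_of_le_one (norm_nonneg _) ha1.le (by omega)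
  classical
  have hQ0 : P * ((p * R'') * R') ≠ 0 :=
    mul_ne_zero hP0 (mul_ne_zero hR.ne_zero hR'.ne_zero)
  obtain ⟨_, ⟨j, rfl⟩, hj⟩ := (Set.infinite_range_of_injective hTinj).exists_notMem_finset
    (UniqueFactorizationMonoid.normalizedFactors (P * ((p * R'') * R'))).toFinset
  have hTd : (C ((a ^ (n + j)) ^ 2) * b').degree < p.degree := by
    refine degree_lt_degree ?_
    exact lt_of_le_of_lt (natDegree_C_mul_le _ _) hdegb
  have hTm : (T j).Monic := hp.add_of_left hTd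
  have hTn : (T j).natDegree = p.natDegree := by
    exact natDegree_eq_of_degree_eq (degree_add_eq_left_of_degree_lt hTd)
  have hTirr : Irreducible (T j) := by
    refine h0 (T j) hTm hTn fun i => ?_
    simp only [T]
    rw [add_sub_cancel_left, coeff_C_mul, norm_mul]
    calc ‖(a ^ (n + j)) ^ 2‖ * ‖b'.coeff i‖ ≤ ‖(a ^ (n + j)) ^ 2‖ * K :=
          mul_le_mul_of_nonneg_left (hKb i).le (norm_nonneg _)
      _ < ε₀ / K * K := mul_lt_mul_of_pos_right ((hnorm j).trans_le (min_le_right _ _)) hK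
      _ = ε₀ := by field_simp
  have hTQ : IsCoprime (T j) (P * ((p * R'') * R')) := by
    rw [hTirr.coprime_iff_not_dvd]
    intro hd
    apply hj
    rw [Multiset.mem_toFinset, Polynomial.mem_normalizedFactors_iff hQ0]
    exact ⟨hTirr, hTm, hd⟩
  have hTR : IsCoprime (T j) ((p * R'') * R') := hTQ.of_mul_right_right
  have hTp : IsCoprime p (T j) := hTR.of_mul_right_left.of_mul_right_left.symm
  refine ⟨T j, hTm, hTirr, hTn, hTQ.of_mul_right_left, hTR, ?_,
    hs2 _ ((hnorm j).trans_le ((min_le_left _ _).trans (min_le_right _ _)))⟩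
  rw [hSYF F hLA p R'' M (T j) hp hR'' hsepR hRM hTR.of_mul_right_left.symm]
  have e1 : sy R'' M (T j) = sy R'' M p :=
    hs1 _ ((hnorm j).trans_le ((min_le_left _ _).trans (min_le_left _ _)))
  have e2 : p ∣ T j - b * C (a ^ (n + j)) ^ 2 := by
    have e3 : T j - b * C (a ^ (n + j)) ^ 2 = p + (-(b - b')) * C ((a ^ (n + j)) ^ 2) := by
      simp only [T]
      rw [C_pow]
      ring
    rw [e3]
    exact dvd_add dvd_rfl ((dvd_neg.2 hpb).mul_right _)
  have e3 : S p (T j) = S p b := (hSSQ F h2 p hp).1 _ _ _ hTp hbc e2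
  have e4 : S p (M * T j) = S p (M * b) := by
    refine (hSSQ F h2 p hp).1 _ _ (C (a ^ (n + j))) (hpM.mul_right hTp) (hpM.mul_right hbc) ?_
    rw [show M * T j - M * b * C (a ^ (n + j)) ^ 2 = (T j - b * C (a ^ (n + j)) ^ 2) * M by ring]
    exact e2.mul_right _
  have e5 : sy p M (T j) = sy p M b := by
    unfold sy
    rw [e3, e4]
  rw [e5, e1, hbx]

end Pool.Agent.H23.WT
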