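import Pool.Agent.H63.WT.TB
import Pool.Agent.H23.WT.MEX

/-! Row SUB of `wit_modules`: the subgroup of the rational points. -/

set_option autoImplicit false

open Polynomial Matrix Pool.Agent.H63.WT

namespace Pool.Agent.H23.WT

/-- equal modulo `M` up to a square -/
def Sm {F : Type*} [Field F] (M a b : F[X]) : Prop := ∃ z : F[X], M ∣ a - b * z ^ 2

section

variable {F : Type*} [Field F] {M : F[X]}

theorem Sm.rfl' (a : F[X]) : Sm M a a := ⟨1, by simp⟩

theorem Sm.trans {a b c : F[X]} (h : Sm M a b) (h' : Sm M b c) : Sm M a c := by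
  obtain ⟨z, hz⟩ := h
  obtain ⟨w, hw⟩ := h'
  refine ⟨w * z, ?_⟩
  have h1 : a - c * (w * z) ^ 2 = (a - b * z ^ 2) + (b - c * w ^ 2) * z ^ 2 := by ring
  rw [h1]
  exact dvd_add hz (hw.mul_right _)

theorem Sm.mul {a b a' b' : F[X]} (h : Sm M a b) (h' : Sm M a' b') : Sm M (a * a') (b * b') := by
  obtain ⟨z, hz⟩ := h
  obtain ⟨w, hw⟩ := h'
  refine ⟨z * w, ?_⟩
  have h1 : a * a' - b * b' * (z * w) ^ 2 =
      (a - b * z ^ 2) * a' + (a' - b' * w ^ 2) * (b * z ^ 2) := by ring
  rw [h1]
  exact dvd_add (hz.mul_right _) (hw.mul_right _)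

theorem Sm.symm {a b : F[X]} (ha : IsCoprime M a) (h : Sm M a b) : Sm M b a := by
  obtain ⟨z, hz⟩ := h
  have h1 : IsCoprime M (b * z ^ 2) := by
    refine cop_congr ha ?_
    rw [show b * z ^ 2 - a = -(a - b * z ^ 2) by ring]
    exact (dvd_neg).2 hz
  have h2 : IsCoprime M (z ^ 2) := h1.of_mul_right_right
  have h3 : IsCoprime M z := (IsCoprime.pow_right_iff two_pos).1 h2
  obtain ⟨u, v, huv⟩ := h3
  refine ⟨v, ?_⟩
  have h4 : b - a * v ^ 2 = -(a - b * z ^ 2) * v ^ 2 + M * (b * u * (1 + v * z)) := by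
    linear_combination (-b * (1 + v * z)) * huv
  rw [h4]
  exact dvd_add ((dvd_neg.2 hz).mul_right _) (dvd_mul_right _ _)

end

theorem cop_lin {F : Type*} [Field F] {M : F[X]} {t : F} (h : eval t M ≠ 0) :
    IsCoprime M (X - C t) := by
  refine ((irreducible_X_sub_C t).coprime_iff_not_dvd.2 ?_).symm
  rw [dvd_iff_isRoot]
  exact h

theorem cop_C {F : Type*} [Field F] (M : F[X]) {c : F} (h : c ≠ 0) : IsCoprime M (C c) :=
  isCoprime_one_right.of_isCoprime_of_dvd_right (isUnit_C.2 (isUnit_iff_ne_zero.2 h)).dvd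

theorem mem_PB {F : Type} [Field F] (M0 : F[X]) (t0 : F) (b : F[X]) :
    b ∈ PB M0 t0 ↔ IsCoprime M0 b ∧ ∃ (c t : F), c ≠ 0 ∧ t ≠ t0 ∧ eval t M0 ≠ 0 ∧
      IsSquare (eval t M0 * eval t0 M0) ∧ Sm M0 b (C c * ((X - C t) * (X - C t0))) := by
  constructor
  · rintro ⟨h, c, t, z, h1, h2, h3, h4, h5⟩
    exact ⟨h, c, t, h1, h2, h3, h4, z, h5⟩
  · rintro ⟨h, c, t, h1, h2, h3, h4, z, h5⟩
    exact ⟨h, c, t, z, h1, h2, h3, h4, h5⟩

theorem PB_closed {F : Type} [Field F] {M0 : F[X]} {t0 : F} {b b' : F[X]} (hb : b ∈ PB M0 t0)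
    (hb' : IsCoprime M0 b') (h : Sm M0 b' b) : b' ∈ PB M0 t0 := by
  rw [mem_PB] at hb ⊢
  obtain ⟨h0, c, t, h1, h2, h3, h4, h5⟩ := hb
  exact ⟨hb', c, t, h1, h2, h3, h4, h.trans h5⟩

/-- nearby points off a finite set, the same up to squares -/
theorem move (hSQP : T_SQP) (hRMB : T_RMB) (hPTB : T_PTB) {F : Type} [NontriviallyNormedField F]
    [IsUltrametricDist F] [ProperSpace F] [CharZero F] (M0 : F[X]) (hM : M0.Monic)
    (hs : M0.Separable) (h4 : M0.natDegree = 4) (t0 t : F) (h0 : eval t0 M0 ≠ 0)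
    (ht : eval t M0 ≠ 0) (hsq : IsSquare (eval t M0 * eval t0 M0)) (Z : Finset F) :
    ∃ t1 : F, t1 ∉ Z ∧ eval t1 M0 ≠ 0 ∧ IsSquare (eval t1 M0 * eval t0 M0) ∧
      Sm M0 (X - C t1) (X - C t) := by
  obtain ⟨ε, hε, h⟩ := near hSQP hRMB M0 (X - C t) hM (cop_lin ht) 0
  obtain ⟨t1, h1, h2, h3, h5⟩ := (hPTB F (eval t0 M0) M0 h0 hM hs h4).1 t ε hε
    (by rwa [mul_comm]) Z
  obtain ⟨z, hz, hd⟩ := h (C (t - t1)) (by simp) (by
    intro i
    rw [coeff_C]
    split_ifs
    · rwa [norm_sub_rev]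
    · rwa [norm_zero])
  refine ⟨t1, h1, fun h6 => h3 (by rw [h6, mul_zero]), by rwa [mul_comm], z, ?_⟩
  have h6 : (X - C t1 : F[X]) = X - C t + C (t - t1) := by
    rw [C_sub]; ring
  rw [h6]
  exact hd

theorem pf_SUB (hFPT : T_FPT) (hLOC : T_LOC) (hSQP : T_SQP) (hRMB : T_RMB) (hPTB : T_PTB) :
    T_SUB := by
  intro F _ _ _ _ M0 t0 hM hs h4 h0
  have hsq0 : IsSquare (eval t0 M0 * eval t0 M0) := ⟨_, rfl⟩
  -- constants
  have hconst : ∀ c : F, c ≠ 0 → C c ∈ PB M0 t0 := by
    intro c hc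
    obtain ⟨t, h1, h2, h3, h5⟩ := move hSQP hRMB hPTB M0 hM hs h4 t0 t0 h0 h0 hsq0 {t0}
    rw [mem_PB]
    refine ⟨cop_C M0 hc, c, t, hc, by simpa using h1, h2, h3, ?_⟩
    -- (X - C t) (X - C t0) is a square
    have h6 : Sm M0 ((X - C t) * (X - C t0)) ((X - C t0) * (X - C t0)) := h5.mul (Sm.rfl' _)
    have h7 : Sm M0 ((X - C t0) * (X - C t0)) 1 := ⟨X - C t0, by
      rw [show (X - C t0) * (X - C t0) - 1 * (X - C t0) ^ 2 = (0 : F[X]) by ring]
      exact dvd_zero _⟩
    have h8 : Sm M0 (C c * ((X - C t) * (X - C t0))) (C c * 1) := (Sm.rfl' _).mul (h6.trans h7)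
    rw [mul_one] at h8
    exact h8.symm ((cop_C M0 hc).mul_right ((cop_lin h2).mul_right (cop_lin h0)))
  refine ⟨hconst, ?_, fun b b' z hb hb' hd => PB_closed hb hb' ⟨z, hd⟩⟩
  intro b hb b' hb'
  have hbb := hb
  have hbb' := hb'
  rw [mem_PB] at hb hb'
  obtain ⟨hc, c, t, hc0, htt0, ht, hst, hS⟩ := hb
  obtain ⟨hc', c', t', hc0', htt0', ht', hst', hS'⟩ := hb'
  have hcop : IsCoprime M0 (b * b') := hc.mul_right hc'
  classical
  obtain ⟨y', hy'⟩ := hst'
  -- interpolation
  let I : F → F → F → F[X] := fun s u v =>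
    Lagrange.interpolate (Finset.univ : Finset (Fin 3)) ![s, t', t0] ![0, u, v]
  let Z : Finset F := {t', t0} ∪ (M0.roots.toFinset ×ˢ (({y', -y'} : Finset F) ×ˢ
    ({eval t0 M0, -eval t0 M0} : Finset F))).biUnion
      fun q => (I q.1 q.2.1 q.2.2 ^ 2 - C (eval t0 M0) * M0).roots.toFinset
  obtain ⟨t1, hZ, ht1, hst1, hS1⟩ := move hSQP hRMB hPTB M0 hM hs h4 t0 t h0 ht hst Z
  have hZ' := hZ
  simp only [Z, Finset.mem_union, not_or, Finset.mem_insert, Finset.mem_singleton] at hZ'
  obtain ⟨⟨ht1t', ht1t0⟩, hZ2⟩ := hZ'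
  obtain ⟨y1, hy1⟩ := hst1
  have hprod : Sm M0 (b * b') (C (c * c') * ((X - C t1) * (X - C t'))) := by
    have e1 : Sm M0 (X - C t) (X - C t1) := hS1.symm (cop_lin ht1)
    have e2 : Sm M0 (b * b') ((C c * ((X - C t) * (X - C t0))) * (C c' * ((X - C t') * (X - C t0)))) :=
      hS.mul hS'
    have e3 : Sm M0 ((C c * ((X - C t) * (X - C t0))) * (C c' * ((X - C t') * (X - C t0))))
        ((C c * ((X - C t1) * (X - C t0))) * (C c' * ((X - C t') * (X - C t0)))) :=
      ((Sm.rfl' _).mul (e1.mul (Sm.rfl' _))).mul (Sm.rfl' _)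
    have e4 : Sm M0 ((C c * ((X - C t1) * (X - C t0))) * (C c' * ((X - C t') * (X - C t0))))
        (C (c * c') * ((X - C t1) * (X - C t'))) := ⟨X - C t0, by
      rw [C_mul]
      rw [show (C c * ((X - C t1) * (X - C t0))) * (C c' * ((X - C t') * (X - C t0))) -
        C c * C c' * ((X - C t1) * (X - C t')) * (X - C t0) ^ 2 = (0 : F[X]) by ring]
      exact dvd_zero _⟩
    exact e2.trans (e3.trans e4)
  obtain ⟨Y, l, s, hl, hY⟩ := hFPT F two_ne_zero (eval t0 M0) M0 ![t1, t', t0]
    ![y1, y', eval t0 M0] h0 hM h4 (by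
      intro i j hij
      fin_cases i <;> fin_cases j <;> simp_all) (by
      intro i
      fin_cases i
      · simp only [Fin.zero_eta, Fin.isValue, Matrix.cons_val_zero]
        constructor
        · rintro rfl
          rw [mul_zero] at hy1
          exact mul_ne_zero ht1 h0 hy1
        · rw [mul_comm, hy1, sq]
      · simp only [Fin.mk_one, Fin.isValue, Matrix.cons_val_one, Matrix.cons_val_zero]
        constructor
        · rintro rfl
          rw [mul_zero] at hy'
          exact mul_ne_zero ht' h0 hy'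
        · rw [mul_comm, hy', sq]
      · simp only [Fin.reduceFinMk, Matrix.cons_val]
        exact ⟨h0, by rw [sq]⟩)
  simp only [Matrix.cons_val_zero, Matrix.cons_val_one, Matrix.cons_val] at hY
  have hSY : Sm M0 (C l * ((X - C t1) * (X - C t') * (X - C t0) * (X - C s))) 1 := by
    refine ⟨Y, ?_⟩
    rw [← hY, one_mul, show Y ^ 2 - C (eval t0 M0) * M0 - Y ^ 2 = M0 * (-C (eval t0 M0)) by ring]
    exact dvd_mul_right _ _
  by_cases hst0 : s = t0
  · -- constant
    subst hst0
    have e1 : Sm M0 ((X - C t1) * (X - C t')) (C l) := by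
      have e2 : Sm M0 ((X - C t1) * (X - C t')) (C l * (C l * ((X - C t1) * (X - C t') *
          (X - C s) * (X - C s)))) := by
        refine Sm.symm ?_ ⟨C l * (X - C s), ?_⟩
        · exact (cop_C M0 hl).mul_right ((cop_C M0 hl).mul_right
            ((((cop_lin ht1).mul_right (cop_lin ht')).mul_right (cop_lin h0)).mul_right
              (cop_lin h0)))
        · rw [show C l * (C l * ((X - C t1) * (X - C t') * (X - C s) * (X - C s))) -
            (X - C t1) * (X - C t') * (C l * (X - C s)) ^ 2 = (0 : F[X]) by ring]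
          exact dvd_zero _
      have e3 := e2.trans ((Sm.rfl' (C l)).mul hSY)
      rwa [mul_one] at e3
    have e4 : Sm M0 (b * b') (C (c * c' * l)) := by
      have e5 := hprod.trans ((Sm.rfl' (C (c * c'))).mul e1)
      rwa [← C_mul] at e5
    exact PB_closed (hconst _ (mul_ne_zero (mul_ne_zero hc0 hc0') hl)) hcop e4
  · have hM0s : eval s M0 ≠ 0 := by
      intro hr
      have hM0ne : M0 ≠ 0 := hM.ne_zero
      have hYs : eval s Y = 0 := by
        have := congrArg (eval s) hY
        simp only [eval_sub, eval_pow, eval_mul, eval_C, hr, mul_zero, sub_zero, eval_X,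
          sub_self] at this
        exact pow_eq_zero_iff (two_ne_zero) |>.1 this
      have hYt' : eval t' Y ∈ ({y', -y'} : Finset F) := by
        have := congrArg (eval t') hY
        simp only [eval_sub, eval_pow, eval_mul, eval_C, mul_zero, eval_X,
          sub_self, zero_mul] at this
        have h5 : eval t' Y ^ 2 = y' ^ 2 := by
          rw [sq y', ← hy']; linear_combination this
        rw [Finset.mem_insert, Finset.mem_singleton]
        exact sq_eq_sq_iff_eq_or_eq_neg.1 h5
      have hYt0 : eval t0 Y ∈ ({eval t0 M0, -eval t0 M0} : Finset F) := by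
        have := congrArg (eval t0) hY
        simp only [eval_sub, eval_pow, eval_mul, eval_C, mul_zero, eval_X,
          sub_self, zero_mul] at this
        have h5 : eval t0 Y ^ 2 = eval t0 M0 ^ 2 := by
          linear_combination this
        rw [Finset.mem_insert, Finset.mem_singleton]
        exact sq_eq_sq_iff_eq_or_eq_neg.1 h5
      have hdY : Y.natDegree ≤ 2 := by
        by_contra hcon
        push Not at hcon
        have e1 : (Y ^ 2).natDegree = 2 * Y.natDegree := natDegree_pow _ _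
        have e2 : (Y ^ 2).natDegree ≤ 4 := by
          have e3 : Y ^ 2 = C (eval t0 M0) * M0 + C l * ((X - C t1) * (X - C t') *
            (X - C t0) * (X - C s)) := by linear_combination hY
          rw [e3]
          refine (natDegree_add_le _ _).trans (max_le ?_ ?_)
          · exact (natDegree_C_mul_le _ _).trans h4.le
          · refine (natDegree_C_mul_le _ _).trans ?_
            rw [natDegree_mul (mul_ne_zero (mul_ne_zero (X_sub_C_ne_zero _) (X_sub_C_ne_zero _))
              (X_sub_C_ne_zero _)) (X_sub_C_ne_zero _),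
              natDegree_mul (mul_ne_zero (X_sub_C_ne_zero _) (X_sub_C_ne_zero _))
              (X_sub_C_ne_zero _), natDegree_mul (X_sub_C_ne_zero _) (X_sub_C_ne_zero _)]
            simp only [natDegree_X_sub_C]
            norm_num
        omega
      have hst' : s ≠ t' := fun h => ht' (h ▸ hr)
      have hYI : Y = I s (eval t' Y) (eval t0 Y) := by
        refine Lagrange.eq_interpolate_of_eval_eq (s := (Finset.univ : Finset (Fin 3)))
          (v := ![s, t', t0]) _ ?_ ?_ ?_
        · intro i _ j _ hij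
          fin_cases i <;> fin_cases j <;> simp_all
        · rw [Finset.card_univ, Fintype.card_fin]
          refine (degree_le_natDegree).trans_lt ?_
          exact_mod_cast (by omega : Y.natDegree < 3)
        · intro i _
          fin_cases i <;> simp [hYs]
      apply hZ2
      rw [Finset.mem_biUnion]
      refine ⟨(s, eval t' Y, eval t0 Y), ?_, ?_⟩
      · rw [Finset.mem_product, Finset.mem_product, Multiset.mem_toFinset, mem_roots hM0ne]
        exact ⟨hr, hYt', hYt0⟩
      · rw [Multiset.mem_toFinset]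
        simp only
        rw [← hYI, hY, mem_roots (mul_ne_zero (C_ne_zero.2 hl) (mul_ne_zero (mul_ne_zero
          (mul_ne_zero (X_sub_C_ne_zero _) (X_sub_C_ne_zero _)) (X_sub_C_ne_zero _))
          (X_sub_C_ne_zero _))), IsRoot.def]
        simp
    rw [mem_PB]
    refine ⟨hcop, c * c' * l, s, mul_ne_zero (mul_ne_zero hc0 hc0') hl, hst0, hM0s, ?_, ?_⟩
    · refine ⟨eval s Y, ?_⟩
      have := congrArg (eval s) hY
      simp only [eval_sub, eval_pow, eval_mul, eval_C, mul_zero, eval_X,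
        sub_self] at this
      linear_combination -this
    · have e2 : Sm M0 ((X - C t1) * (X - C t')) ((C l * ((X - C s) * (X - C t0))) *
          (C l * ((X - C t1) * (X - C t') * (X - C t0) * (X - C s)))) := by
        refine Sm.symm ?_ ⟨C l * ((X - C s) * (X - C t0)), ?_⟩
        · exact ((cop_C M0 hl).mul_right ((cop_lin hM0s).mul_right (cop_lin h0))).mul_right
            ((cop_C M0 hl).mul_right
            ((((cop_lin ht1).mul_right (cop_lin ht')).mul_right (cop_lin h0)).mul_right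
              (cop_lin hM0s)))
        · rw [show C l * ((X - C s) * (X - C t0)) * (C l * ((X - C t1) * (X - C t') *
              (X - C t0) * (X - C s))) -
            (X - C t1) * (X - C t') * (C l * ((X - C s) * (X - C t0))) ^ 2 = (0 : F[X]) by ring]
          exact dvd_zero _
      have e3 := e2.trans ((Sm.rfl' (C l * ((X - C s) * (X - C t0)))).mul hSY)
      rw [mul_one] at e3
      have e5 := hprod.trans ((Sm.rfl' (C (c * c'))).mul e3)
      rwa [← mul_assoc, ← C_mul] at e5

end Pool.Agent.H23.WT
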