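import Pool.Agent.H15.WT.QDZ
import Pool.Agent.H97.QCL.NDG
import Pool.Agent.H97.QCL.BIM

/-! Row TR2 of `wit_modules`: the transfer for quadratic extensions. -/

set_option autoImplicit false

open Polynomial Matrix Pool.Agent.H32.QC Pool.Agent.H63.WT

namespace Pool.Agent.H23.WT

open Pool.Agent.H97.QCL (hil_one hil_neg hil_symm sol_symm sol_sq sol_mul)
open Pool.Agent.H15.WT (sn_one exists_sqrt)

theorem mem_sqr {F : Type} [Field F] (b : Fˣ) :
    b ∈ (powMonoidHom 2 : Fˣ →* Fˣ).range ↔ IsSquare (b : F) := by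
  constructor
  · rintro ⟨y, hy⟩
    refine ⟨(y : F), ?_⟩
    rw [← hy, powMonoidHom_apply, Units.val_pow_eq_pow_val, sq]
  · rintro ⟨r, hr⟩
    have hr0 : r ≠ 0 := by
      rintro rfl
      exact b.ne_zero (by rw [hr, mul_zero])
    refine ⟨Units.mk0 r hr0, ?_⟩
    ext
    rw [powMonoidHom_apply, Units.val_pow_eq_pow_val, Units.val_mk0, hr, sq]

theorem exists_two {F : Type} [Field F] (hn : 2 < nsq F) {d : F} (hd : ¬ IsSquare d) :
    ∃ a : F, a ≠ 0 ∧ ¬ IsSquare a ∧ ¬ IsSquare (a * d) := by
  by_contra hcon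
  push Not at hcon
  have hd0 : d ≠ 0 := by
    rintro rfl
    exact hd ⟨0, by ring⟩
  have h1 : (powMonoidHom 2 : Fˣ →* Fˣ).range.index = 2 := by
    rw [Subgroup.index_eq_two_iff]
    refine ⟨Units.mk0 d hd0, fun b => ?_⟩
    rw [mem_sqr, mem_sqr, Units.val_mul, Units.val_mk0]
    by_cases hb : IsSquare (b : F)
    · refine Or.inr ⟨hb, fun h => hd ?_⟩
      obtain ⟨r, hr⟩ := hb
      obtain ⟨q, hq⟩ := h
      have hb0 := b.ne_zero
      have hr0 : r ≠ 0 := by
        rintro rfl
        exact hb0 (by rw [hr, mul_zero])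
      refine ⟨q / r, ?_⟩
      rw [hr] at hq
      field_simp
      linear_combination hq
    · exact Or.inl ⟨hcon _ b.ne_zero hb, hb⟩
  unfold nsq at hn
  omega

theorem choice {F : Type} [Field F] (h2 : (2 : F) ≠ 0) (hNI : NI F) (hn : 2 < nsq F) {d : F}
    (hd : ¬ IsSquare d) : ∃ a x : F, a ≠ 0 ∧ x ^ 2 - d ≠ 0 ∧ ¬ Sol a (x ^ 2 - d) := by
  have hd0 : d ≠ 0 := by
    rintro rfl
    exact hd ⟨0, by ring⟩
  obtain ⟨a, ha0, ha, had⟩ := exists_two hn hd
  obtain ⟨z, hz0, hz1, hz2⟩ := Pool.Agent.H97.QCL.pf_NDG F h2 hNI (a * d) a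
    (mul_ne_zero ha0 hd0) ha0 had ha
  have h3 := Pool.Agent.H97.QCL.pf_BIM F h2 hNI z a d hz0 ha0 hd0
  rw [hil_symm z (a * d), hz1, hil_symm z a, hz2] at h3
  have h4 : hil z d = 1 := by linarith
  obtain ⟨p, q, r, hne, heq⟩ := sol_symm (hil_one.1 h4)
  have hza : ¬ Sol a z := hil_neg.1 hz2
  have hp : p ≠ 0 := by
    rintro rfl
    have hq : q ≠ 0 := by
      rintro rfl
      have : r = 0 := by
        have h5 : r ^ 2 = 0 := by rw [heq]; ring
        exact pow_eq_zero_iff two_ne_zero |>.1 h5
      rcases hne with h | h | h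
      · exact h rfl
      · exact h rfl
      · exact h this
    apply hza
    apply sol_symm
    apply sol_sq
    refine ⟨r / q, ?_⟩
    field_simp
    linear_combination -heq
  have hq : q ≠ 0 := by
    rintro rfl
    apply hd
    refine ⟨r / p, ?_⟩
    field_simp
    linear_combination -heq
  have h5 : (r / p) ^ 2 - d = z * (q / p) ^ 2 := by
    field_simp
    linear_combination heq
  have h6 : (r / p) ^ 2 - d ≠ 0 := by
    rw [h5]
    exact mul_ne_zero hz0 (pow_ne_zero _ (div_ne_zero hq hp))
  refine ⟨a, r / p, ha0, h6, fun h => hza ?_⟩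
  refine sol_mul hz0 h6 ⟨z * (q / p), ?_⟩ h
  rw [h5]
  ring

theorem pf_TR2 (hTRU : T_TRU) (hTRH : T_TRH) (hPFI : T_PFI) (_hIV : T_IV) (hONE : T_ONE)
    (hCLS : T_CLS) (_hLAE : T_LAE) : T_TR2 := by
  intro F E _ _ _ hF hdim
  have h2 := hF.1
  obtain ⟨hNI, hn⟩ := hF.2 F inferInstance
  have h2E : (2 : E) ≠ 0 := by
    intro h
    apply h2
    have : algebraMap F E 2 = 0 := by rw [map_ofNat]; exact h
    exact (map_eq_zero _).mp this
  obtain ⟨d, w, hd, hw⟩ := exists_sqrt F E h2 hdim
  obtain ⟨a, x, ha, hN, hsol⟩ := choice h2 hNI hn hd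
  have hli : LinearIndependent F ![(1 : E), w] := by
    rw [LinearIndependent.pair_iff]
    intro p q hpq
    have hq : q = 0 := by
      by_contra hq
      apply hd
      refine ⟨-(p / q), ?_⟩
      have hq' : algebraMap F E q ≠ 0 := (_root_.map_ne_zero _).mpr hq
      rw [Algebra.smul_def, Algebra.smul_def, mul_one] at hpq
      have hwe : w = algebraMap F E (-(p / q)) := by
        rw [map_neg, map_div₀]
        field_simp
        linear_combination hpq
      apply (algebraMap F E).injective
      rw [hw, hwe, map_mul]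
      ring
    refine ⟨?_, hq⟩
    rw [hq, zero_smul, add_zero, Algebra.smul_def, mul_one] at hpq
    exact (map_eq_zero _).mp hpq
  let b : Module.Basis (Fin 2) F E :=
    basisOfLinearIndependentOfCardEqFinrank hli (by rw [Fintype.card_fin, hdim])
  have hb0 : b 0 = 1 := by simp [b]
  have hb1 : b 1 = w := by simp [b]
  let s : E →ₗ[F] F := b.coord 1
  have hs : ∀ p q : F, s (algebraMap F E p + algebraMap F E q * w) = q := by
    intro p q
    have h1 : algebraMap F E p + algebraMap F E q * w = p • b 0 + q • b 1 := by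
      rw [hb0, hb1, Algebra.smul_def, Algebra.smul_def, mul_one]
    rw [h1, map_add, map_smul, map_smul]
    simp [s, Module.Basis.coord_apply]
  have hs0 : s ≠ 0 := by
    intro h
    have h1 := hs 0 1
    rw [h] at h1
    simp at h1
  obtain ⟨f, hf⟩ := hTRH F E h2 2 b s hs0
  -- constants
  have hc : ∀ c : F, c ≠ 0 → f (on (algebraMap F E c)) = 0 := by
    intro c hc
    have hc' : algebraMap F E c ≠ 0 := (_root_.map_ne_zero _).mpr hc
    obtain ⟨h3, h4⟩ := hf (Fin 1) _ (sn_one hc')
    rw [on, h4]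
    refine (hCLS F h2).1 _ _ h3 ⟨1, by simp, fun _ => Pi.single (0, 0) 1, ?_, ?_⟩
    · rw [linearIndependent_unique_iff]
      intro h
      have h5 := congrFun h (0, 0)
      simp at h5
    · intro i j
      rw [mulVec_single_one, single_one_dotProduct]
      simp only [trm, Matrix.col_apply]
      rw [hb0, mul_one, mul_one]
      have h5 := hs c 0
      rw [map_zero, zero_mul, add_zero] at h5
      exact h5
  -- the element
  set β : E := algebraMap F E x + w with hβ
  have hbe : ∀ c : F, c ≠ 0 → algebraMap F E c * β ≠ 0 →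
      f (on (algebraMap F E c * β)) = on c - on (c * (x ^ 2 - d)) := by
    intro c hc hne
    obtain ⟨h3, h4⟩ := hf (Fin 1) _ (sn_one hne)
    rw [on, h4]
    let U : Matrix (Fin 2) (Fin 1 × Fin 2) F := fun i j => !![1, x; 0, 1] i j.2
    let V : Matrix (Fin 1 × Fin 2) (Fin 2) F := fun i j => !![1, -x; 0, 1] i.2 j
    have hcN : -(c * (x ^ 2 - d)) ≠ 0 := neg_ne_zero.2 (mul_ne_zero hc hN)
    have hdg : SN (diagonal ![c, -(c * (x ^ 2 - d))] : Matrix (Fin 2) (Fin 2) F) := by
      refine ⟨isSymm_diagonal _, ?_⟩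
      rw [det_diagonal, Fin.prod_univ_two]
      exact mul_ne_zero hc hcN
    have hUV : U * V = 1 := by
      ext i j
      rw [Matrix.mul_apply, Fintype.sum_prod_type]
      fin_cases i <;> fin_cases j <;> simp [U, V]
    have hVU : V * U = 1 := by
      ext ⟨i', i⟩ ⟨j', j⟩
      rw [Matrix.mul_apply]
      obtain rfl : i' = 0 := Subsingleton.elim _ _
      obtain rfl : j' = 0 := Subsingleton.elim _ _
      fin_cases i <;> fin_cases j <;> simp [U, V]
    have h5 := ((hCLS F h2).2.2.1 (Fin 2) (Fin 1 × Fin 2) _ U V hdg hUV hVU).2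
    have h6 : Uᵀ * diagonal ![c, -(c * (x ^ 2 - d))] * U =
        trm s b (fun _ _ : Fin 1 => algebraMap F E c * β : Matrix (Fin 1) (Fin 1) E) := by
      have e00 : s (algebraMap F E c * β * (b 0 * b 0)) = c := by
        rw [hb0]
        have := hs (c * x) c
        rw [map_mul] at this
        refine Eq.trans (congrArg s ?_) this
        rw [hβ]
        ring
      have e01 : s (algebraMap F E c * β * (b 0 * b 1)) = c * x := by
        rw [hb0, hb1]
        have := hs (c * d) (c * x)
        rw [map_mul, map_mul] at this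
        refine Eq.trans (congrArg s ?_) this
        rw [hβ]
        linear_combination (-algebraMap F E c) * hw
      have e10 : s (algebraMap F E c * β * (b 1 * b 0)) = c * x := by
        rw [mul_comm (b 1) (b 0), e01]
      have e11 : s (algebraMap F E c * β * (b 1 * b 1)) = c * d := by
        rw [hb1]
        have := hs (c * x * d) (c * d)
        rw [map_mul, map_mul, map_mul] at this
        refine Eq.trans (congrArg s ?_) this
        rw [hβ]
        linear_combination (-algebraMap F E c * (algebraMap F E x + w)) * hw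
      ext ⟨i', i⟩ ⟨j', j⟩
      rw [Matrix.mul_apply, Fin.sum_univ_two, mul_diagonal, mul_diagonal,
        Matrix.transpose_apply, Matrix.transpose_apply]
      obtain rfl : i' = 0 := Subsingleton.elim _ _
      obtain rfl : j' = 0 := Subsingleton.elim _ _
      fin_cases i <;> fin_cases j
      · simp [U, trm, e00]
      · simp [U, trm, e01]
      · simp [U, trm, e10]
        ring
      · simp [U, trm, e11]
        ring
    rw [← h6, h5, (hONE F h2).2.2.1 (Fin 2) _ (by
      intro i
      fin_cases i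
      · exact hc
      · exact hcN), Fin.sum_univ_two]
    simp only [Matrix.cons_val_zero, Matrix.cons_val_one]
    rw [(hONE F h2).2.1 _ (mul_ne_zero hc hN)]
    exact (sub_eq_add_neg _ _).symm
  have hβ0 : β ≠ 0 := by
    intro h
    have h1 := hs x 1
    rw [map_one, one_mul, ← hβ, h, map_zero] at h1
    exact zero_ne_one h1
  have ha' : algebraMap F E a ≠ 0 := (_root_.map_ne_zero _).mpr ha
  refine hTRU F E hF ⟨2, b, s, f, pf (algebraMap F E a) β, hs0, fun ι _ _ A hA => hf ι A hA,
    (hPFI E h2E _ _ ha' hβ0).1, ?_⟩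
  intro h0
  have h1 := hc 1 one_ne_zero
  rw [map_one] at h1
  have h3 := hbe 1 one_ne_zero (by rw [map_one, one_mul]; exact hβ0)
  rw [map_one, one_mul, one_mul] at h3
  rw [pf, map_add, map_sub, map_sub, h1, hc a ha, h3, hbe a ha (mul_ne_zero ha' hβ0)] at h0
  apply hsol
  rw [← (hPFI F h2 a (x ^ 2 - d) ha hN).2, pf]
  rw [← neg_eq_zero, ← h0]
  abel

end Pool.Agent.H23.WT
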